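import Pool.Agent.H34.TAM.Stmts3

/-!
# Row MUS of the board per
-/

set_option autoImplicit false

namespace Pool.PER

open Pool.CGR Pool.CGS Pool.TAM Pool.AUT MulOpposite

open scoped TensorProduct

theorem mus_thm (h1 : MUMStmt) : MUSStmt := by
  intro m r μ hr hμ s hs h
  obtain ⟨h11, hmul, -, h00⟩ := h1 m r μ hr hμ
  induction h using FreeAlgebra.induction with
  | grade0 c =>
    refine ⟨‖c‖, 0, norm_nonneg _, le_rfl, ?_⟩
    intro F G hF hG
    refine ⟨?_, ?_⟩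
    · rw [AlgHom.commutes, Algebra.algebraMap_eq_smul_one]
      refine (hμ.smul c 1).trans ?_
      calc ‖c‖ * μ 1 ≤ ‖c‖ * 1 := mul_le_mul_of_nonneg_left h11 (norm_nonneg _)
        _ = ‖c‖ := mul_one _
    · intro η hη _
      rw [AlgHom.commutes, AlgHom.commutes, sub_self, h00, zero_mul]
  | grade1 j =>
    refine ⟨s, 1, hs, zero_le_one, ?_⟩
    intro F G hF hG
    refine ⟨?_, ?_⟩
    · rw [FreeAlgebra.lift_ι_apply]
      exact hF j
    · intro η hη hd
      rw [FreeAlgebra.lift_ι_apply, FreeAlgebra.lift_ι_apply, one_mul]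
      exact hd j
  | mul a b iha ihb =>
    obtain ⟨Ba, Ka, hBa, hKa, ha⟩ := iha
    obtain ⟨Bb, Kb, hBb, hKb, hb⟩ := ihb
    refine ⟨Ba * Bb, Ka * Bb + Ba * Kb, mul_nonneg hBa hBb,
      add_nonneg (mul_nonneg hKa hBb) (mul_nonneg hBa hKb), ?_⟩
    intro F G hF hG
    obtain ⟨ha1, ha2⟩ := ha F G hF hG
    obtain ⟨hb1, hb2⟩ := hb F G hF hG
    have ha3 := (ha G F hG hF).1
    refine ⟨?_, ?_⟩
    · rw [map_mul]
      exact (hmul _ _).trans (mul_le_mul ha1 hb1 (hμ.nonneg _) hBa)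
    · intro η hη hd
      have e : FreeAlgebra.lift ℂ F (a * b) - FreeAlgebra.lift ℂ G (a * b) =
          (FreeAlgebra.lift ℂ F a - FreeAlgebra.lift ℂ G a) * FreeAlgebra.lift ℂ F b +
          FreeAlgebra.lift ℂ G a * (FreeAlgebra.lift ℂ F b - FreeAlgebra.lift ℂ G b) := by
        rw [map_mul, map_mul, sub_mul, mul_sub]
        abel
      rw [e]
      refine (hμ.add _ _).trans ?_
      have e1 := (hmul (FreeAlgebra.lift ℂ F a - FreeAlgebra.lift ℂ G a)
        (FreeAlgebra.lift ℂ F b)).trans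
        (mul_le_mul (ha2 η hη hd) hb1 (hμ.nonneg _) (mul_nonneg hKa hη))
      have e2 := (hmul (FreeAlgebra.lift ℂ G a)
        (FreeAlgebra.lift ℂ F b - FreeAlgebra.lift ℂ G b)).trans
        (mul_le_mul ha3 (hb2 η hη hd) (hμ.nonneg _) hBa)
      calc _ ≤ Ka * η * Bb + Ba * (Kb * η) := add_le_add e1 e2
        _ = (Ka * Bb + Ba * Kb) * η := by ring
  | add a b iha ihb =>
    obtain ⟨Ba, Ka, hBa, hKa, ha⟩ := iha
    obtain ⟨Bb, Kb, hBb, hKb, hb⟩ := ihb
    refine ⟨Ba + Bb, Ka + Kb, add_nonneg hBa hBb, add_nonneg hKa hKb, ?_⟩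
    intro F G hF hG
    obtain ⟨ha1, ha2⟩ := ha F G hF hG
    obtain ⟨hb1, hb2⟩ := hb F G hF hG
    refine ⟨?_, ?_⟩
    · rw [map_add]
      exact (hμ.add _ _).trans (add_le_add ha1 hb1)
    · intro η hη hd
      have e : FreeAlgebra.lift ℂ F (a + b) - FreeAlgebra.lift ℂ G (a + b) =
          (FreeAlgebra.lift ℂ F a - FreeAlgebra.lift ℂ G a) +
          (FreeAlgebra.lift ℂ F b - FreeAlgebra.lift ℂ G b) := by
        rw [map_add, map_add]
        abel
      rw [e]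
      refine (hμ.add _ _).trans ?_
      calc _ ≤ Ka * η + Kb * η := add_le_add (ha2 η hη hd) (hb2 η hη hd)
        _ = (Ka + Kb) * η := by ring

end Pool.PER
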